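import Mathlib

/-!
SMITH with a Galois action on the 2-torsion, local theory: the local invariant of a 2-cochain and
the local pairing.

`sg`, `ph` are a tame generator and a Frobenius with `ph sg ph⁻¹ = sg ^ q` (at the finite level).
For a 2-cochain `c` with values in `ZMod 2` the element
`inv sg ph q c = c(ph, sg) + c(sg^q, ph) + ∑_{1 ≤ i < q} c(sg^i, sg)` is the obstruction
`ph sg ph⁻¹ sg^{-q}` in the extension defined by `c`; it is additive and kills the coboundaries.

`syf e A F q` is the bilinear form on pairs `(c sg, c ph)` of values of cocycles which is the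
invariant of the cup product `(s, t) ↦ e(c(s), s d(t))` (`A`, `F` the actions of `sg`, `ph`).
-/

set_option autoImplicit false

open Finset

namespace Pool.Agent.SmN.Loc

section inv

variable {G : Type*} [Group G]

/-- The local invariant of a 2-cochain. -/
def inv (sg ph : G) (q : ℕ) (c : G → G → ZMod 2) : ZMod 2 :=
  c ph sg + c (sg ^ q) ph + ∑ i ∈ Ico 1 q, c (sg ^ i) sg

theorem inv_add (sg ph : G) (q : ℕ) (c d : G → G → ZMod 2) :
    inv sg ph q (fun s t => c s t + d s t) = inv sg ph q c + inv sg ph q d := by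
  unfold inv
  rw [sum_add_distrib]
  ring

theorem inv_zero (sg ph : G) (q : ℕ) : inv sg ph q (fun _ _ => 0) = 0 := by
  simp [inv]

theorem inv_congr {D : Subgroup G} {sg ph : G} (hs : sg ∈ D) (hp : ph ∈ D) (q : ℕ)
    {c d : G → G → ZMod 2} (h : ∀ s ∈ D, ∀ t ∈ D, c s t = d s t) :
    inv sg ph q c = inv sg ph q d := by
  unfold inv
  rw [h _ hp _ hs, h _ (D.pow_mem hs q) _ hp,
    sum_congr rfl fun i _ => h _ (D.pow_mem hs i) _ hs]

/-- The invariant of a coboundary is zero. -/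
theorem inv_cob {sg ph : G} {q : ℕ} (hq : Odd q) (η : G → ZMod 2)
    (h : η (ph * sg) = η (sg ^ q * ph)) :
    inv sg ph q (fun s t => η s + η t + η (s * t)) = 0 := by
  have key : ∀ m : ℕ, ∑ i ∈ Ico 1 (m + 1), (η (sg ^ i) + η sg + η (sg ^ i * sg)) =
      (m : ZMod 2) * η sg + η sg + η (sg ^ (m + 1)) := by
    intro m
    induction m with
    | zero =>
      simp only [zero_add, Ico_self, sum_empty, Nat.cast_zero, zero_mul, pow_one]
      exact (CharTwo.add_self_eq_zero _).symm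
    | succ m ih =>
      rw [sum_Ico_succ_top (by omega), ih, ← pow_succ]
      push_cast
      have h3 : η (sg ^ (m + 1)) + η (sg ^ (m + 1)) = 0 := CharTwo.add_self_eq_zero _
      linear_combination h3
  obtain ⟨m, rfl⟩ := hq
  unfold inv
  rw [key]
  beta_reduce
  rw [h]
  push_cast
  have e1 : (2 : ZMod 2) = 0 := by decide
  have h3 : ∀ x : ZMod 2, x + x = 0 := fun x => CharTwo.add_self_eq_zero _
  linear_combination h3 (η ph) + h3 (η sg) + h3 (η (sg ^ (2 * m + 1))) +
    h3 (η (sg ^ (2 * m + 1) * ph)) + (m : ZMod 2) * η sg * e1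

end inv

section form

variable {V1 : Type*} [AddCommGroup V1] [Module (ZMod 2) V1]

/-- `1 + A + ... + A^(i-1)`. -/
def nrm (A : V1 ≃ₗ[ZMod 2] V1) (i : ℕ) : V1 →ₗ[ZMod 2] V1 :=
  ∑ j ∈ range i, ((A ^ j : V1 ≃ₗ[ZMod 2] V1) : V1 →ₗ[ZMod 2] V1)

theorem nrm_apply (A : V1 ≃ₗ[ZMod 2] V1) (i : ℕ) (x : V1) :
    nrm A i x = ∑ j ∈ range i, (A ^ j) x := by
  simp [nrm, LinearMap.sum_apply]

theorem nrm_succ (A : V1 ≃ₗ[ZMod 2] V1) (i : ℕ) (x : V1) :
    nrm A (i + 1) x = nrm A i x + (A ^ i) x := by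
  rw [nrm_apply, sum_range_succ, ← nrm_apply]

/-- The local pairing on pairs of values. -/
def syf (e : V1 →ₗ[ZMod 2] V1 →ₗ[ZMod 2] ZMod 2) (A F : V1 ≃ₗ[ZMod 2] V1) (q : ℕ) :
    V1 × V1 →ₗ[ZMod 2] V1 × V1 →ₗ[ZMod 2] ZMod 2 :=
  LinearMap.mk₂ (ZMod 2) (fun x y => e x.2 (F y.1) + e (nrm A q x.1) ((A ^ q) y.2) +
      ∑ i ∈ Ico 1 q, e (nrm A i x.1) ((A ^ i) y.1))
    (by
      intro x x' y
      simp only [Prod.fst_add, Prod.snd_add, map_add, LinearMap.add_apply, sum_add_distrib]
      ring)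
    (by
      intro a x y
      simp only [Prod.smul_fst, Prod.smul_snd, map_smul, LinearMap.smul_apply, smul_eq_mul,
        ← mul_sum, mul_add])
    (by
      intro x y y'
      simp only [Prod.fst_add, Prod.snd_add, map_add, sum_add_distrib]
      ring)
    (by
      intro a x y
      simp only [Prod.smul_fst, Prod.smul_snd, map_smul, smul_eq_mul, ← mul_sum, mul_add])

theorem syf_apply (e : V1 →ₗ[ZMod 2] V1 →ₗ[ZMod 2] ZMod 2) (A F : V1 ≃ₗ[ZMod 2] V1) (q : ℕ)
    (x y : V1 × V1) : syf e A F q x y = e x.2 (F y.1) + e (nrm A q x.1) ((A ^ q) y.2) +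
      ∑ i ∈ Ico 1 q, e (nrm A i x.1) ((A ^ i) y.1) := rfl

end form

section coc

variable {G V1 : Type*} [Group G] [AddCommGroup V1] [Module (ZMod 2) V1]
variable (ac : G →* (V1 ≃ₗ[ZMod 2] V1)) (e : V1 →ₗ[ZMod 2] V1 →ₗ[ZMod 2] ZMod 2)

/-- The cocycle condition on `D`. -/
def Coc (D : Subgroup G) (c : G → V1) : Prop :=
  ∀ s ∈ D, ∀ t ∈ D, c (s * t) = c s + ac s (c t)

/-- The cup product. -/
def cup (c d : G → V1) (s t : G) : ZMod 2 := e (c s) (ac s (d t))

variable {ac}

theorem Coc.one {D : Subgroup G} {c : G → V1} (h : Coc ac D c) : c 1 = 0 := by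
  have h1 := h 1 D.one_mem 1 D.one_mem
  rw [mul_one, map_one] at h1
  have h2 : c 1 = c 1 + c 1 := h1
  exact left_eq_add.1 h2

theorem Coc.pow {D : Subgroup G} {c : G → V1} (h : Coc ac D c) {s : G} (hs : s ∈ D) (i : ℕ) :
    c (s ^ i) = nrm (ac s) i (c s) := by
  induction i with
  | zero => rw [pow_zero, h.one, nrm_apply]; simp
  | succ i ih =>
    rw [pow_succ, h _ (D.pow_mem hs i) _ hs, ih, nrm_succ, map_pow]

/-- The local pairing is the invariant of the cup product. -/
theorem syf_eq_inv {D : Subgroup G} {c d : G → V1} (hc : Coc ac D c) (sg ph : G)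
    (hs : sg ∈ D) (q : ℕ) :
    syf e (ac sg) (ac ph) q (c sg, c ph) (d sg, d ph) = inv sg ph q (cup ac e c d) := by
  rw [syf_apply]
  unfold inv cup
  rw [hc.pow hs q, map_pow]
  congr 1
  refine sum_congr rfl fun i _ => ?_
  rw [hc.pow hs i, map_pow]

/-- The cup product with a coboundary is a coboundary. -/
theorem cup_cob (he : ∀ (s : G) w w', e (ac s w) (ac s w') = e w w') {D : Subgroup G}
    {c : G → V1} (hc : Coc ac D c) (z : V1) {s t : G} (hs : s ∈ D) (ht : t ∈ D) :
    cup ac e c (fun t => ac t z - z) s t =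
      e (c s) (ac s z) + e (c t) (ac t z) + e (c (s * t)) (ac (s * t) z) := by
  unfold cup
  rw [hc s hs t ht, map_mul, map_add, LinearMap.add_apply, LinearEquiv.mul_apply, he, map_sub,
    map_sub]
  have h3 : ∀ x : ZMod 2, x + x = 0 := fun x => CharTwo.add_self_eq_zero _
  linear_combination - h3 (e (c s) (ac s z)) - h3 (e (c t) (ac t z))

/-- The cup product is commutative up to a coboundary. -/
theorem cup_comm (hsym : ∀ w w', e w w' = e w' w)
    (he : ∀ (s : G) w w', e (ac s w) (ac s w') = e w w') {D : Subgroup G}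
    {c d : G → V1} (hc : Coc ac D c) (hd : Coc ac D d) {s t : G} (hs : s ∈ D) (ht : t ∈ D) :
    cup ac e c d s t = cup ac e d c s t + (e (c s) (d s) + e (c t) (d t) + e (c (s * t)) (d (s * t))) := by
  unfold cup
  rw [hc s hs t ht, hd s hs t ht]
  simp only [map_add, LinearMap.add_apply]
  rw [he, hsym (d s) (ac s (c t))]
  have h3 : ∀ x : ZMod 2, x + x = 0 := fun x => CharTwo.add_self_eq_zero _
  linear_combination - h3 (e (c s) (d s)) - h3 (e (c t) (d t)) - h3 (e (ac s (c t)) (d s))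

end coc

end Pool.Agent.SmN.Loc
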