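import Pool.Agent.Lib.SmN.Sys
import Pool.Agent.Lib.SmN.Loc.Inv

/-!
SMITH with a Galois action on the 2-torsion, local theory: the fields `sy_comm`, `sy_cob`, `sy_unr`,
`sy_split` of `Sys.Ok` for the local pairing `sy v = syf e (ac sg) (ac ph) q_v`.

`LocD S q`: what is needed: `q v` odd, `phi sg phi⁻¹ = sg ^ q` modulo every `N`, `sy v` is given by
the formula, `eps v = (q_v - 1) / 2`, the action on `V1` is of finite level and trivial at the tame
generators of the good places, `e` is alternating and invariant.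
-/

set_option autoImplicit false

open Finset

namespace Pool.Agent.SmN.Loc

variable {G V V1 Pl : Type*} [Group G] [AddCommGroup V] [DistribMulAction G V]
  [AddCommGroup V1] [Module (ZMod 2) V1]

/-- The hypotheses for the local pairing. -/
structure LocD (S : Sys G V V1 Pl) (q : Pl → ℕ) : Prop where
  q_odd : ∀ v, Odd (q v)
  normal : ∀ N ∈ S.NN, N.Normal
  phi_mem : ∀ v, S.phi v ∈ S.D v
  sg_mem : ∀ v, S.sg v ∈ S.D v
  rel : ∀ v, ∀ N ∈ S.NN, (S.sg v ^ q v)⁻¹ * (S.phi v * S.sg v * (S.phi v)⁻¹) ∈ N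
  sy_eq : ∀ v, S.sy v = syf S.e (S.ac (S.sg v)) (S.ac (S.phi v)) (q v)
  eps_eq : ∀ v, S.eps v = (((q v - 1) / 2 : ℕ) : ZMod 2)
  e_alt : ∀ w, S.e w w = 0
  e_inv : ∀ s w w', S.e (S.ac s w) (S.ac s w') = S.e w w'
  ac_fin : ∃ N ∈ S.NN, ∀ s ∈ N, S.ac s = 1
  ac_good : ∀ v ∈ S.good, S.ac (S.sg v) = 1

namespace LocD

variable {S : Sys G V V1 Pl} {q : Pl → ℕ}

theorem e_comm (h : LocD S q) (x y : V1) : S.e x y = S.e y x := by
  have h1 := h.e_alt (x + y)
  simp only [map_add, LinearMap.add_apply, h.e_alt, zero_add, add_zero] at h1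
  have h3 : ∀ x : ZMod 2, x + x = 0 := fun x => CharTwo.add_self_eq_zero _
  linear_combination h1 - h3 (S.e y x)

theorem mem_N (h : LocD S q) (v : Pl) {N : Subgroup G} (hN : N ∈ S.NN) :
    (S.sg v ^ q v * S.phi v)⁻¹ * (S.phi v * S.sg v) ∈ N := by
  have h1 := (h.normal N hN).conj_mem _ (h.rel v N hN) (S.phi v)⁻¹
  have h2 : (S.sg v ^ q v * S.phi v)⁻¹ * (S.phi v * S.sg v) =
      (S.phi v)⁻¹ * ((S.sg v ^ q v)⁻¹ * (S.phi v * S.sg v * (S.phi v)⁻¹)) * (S.phi v)⁻¹⁻¹ := by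
    group
  rw [h2]
  exact h1

/-- A function of finite level on `D v` takes the same value at `phi sg` and `sg ^ q phi`. -/
theorem tf_rel (h : LocD S q) (v : Pl) {α : Type*} {f : G → α} (hf : S.TFOn (S.D v) f) :
    f (S.phi v * S.sg v) = f (S.sg v ^ q v * S.phi v) := by
  obtain ⟨N, hN, hf⟩ := hf
  have h1 := h.mem_N v hN
  have hD : S.sg v ^ q v * S.phi v ∈ S.D v :=
    (S.D v).mul_mem ((S.D v).pow_mem (h.sg_mem v) _) (h.phi_mem v)
  have hD' : S.phi v * S.sg v ∈ S.D v := (S.D v).mul_mem (h.phi_mem v) (h.sg_mem v)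
  have h2 := hf _ hD _ h1 ((S.D v).mul_mem ((S.D v).inv_mem hD) hD')
  rw [mul_inv_cancel_left] at h2
  exact h2

theorem ac_rel (h : LocD S q) (v : Pl) :
    S.ac (S.phi v * S.sg v) = S.ac (S.sg v ^ q v * S.phi v) := by
  obtain ⟨N, hN, h1⟩ := h.ac_fin
  have h2 := h1 _ (h.mem_N v hN)
  rw [map_mul, map_inv, inv_mul_eq_one] at h2
  exact h2.symm

theorem sy_loc (h : LocD S q) (v : Pl) {c d : G → V1} (hc : Coc S.ac (S.D v) c) :
    S.sy v (S.loc v c) (S.loc v d) = inv (S.sg v) (S.phi v) (q v) (cup S.ac S.e c d) := by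
  rw [h.sy_eq]
  exact syf_eq_inv S.e hc (S.sg v) (S.phi v) (h.sg_mem v) (q v)

theorem sy_comm (h : LocD S q) (v : Pl) (x : V1 × V1) (hx : x ∈ S.CP v) (y : V1 × V1)
    (hy : y ∈ S.CP v) : S.sy v x y = S.sy v y x := by
  obtain ⟨c, hcf, hc, rfl⟩ := hx
  obtain ⟨d, hdf, hd, rfl⟩ := hy
  rw [h.sy_loc v hc, h.sy_loc v hd]
  rw [inv_congr (h.sg_mem v) (h.phi_mem v) (q v)
    fun s hs t ht => cup_comm S.e h.e_comm h.e_inv hc hd hs ht, inv_add, inv_cob (h.q_odd v)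
      (fun s => S.e (c s) (d s)), add_zero]
  rw [h.tf_rel v hcf, h.tf_rel v hdf]

theorem coc_cob (S : Sys G V V1 Pl) (v : Pl) (z : V1) :
    Coc S.ac (S.D v) (fun t => S.ac t z - z) := by
  intro s _ t _
  simp only [map_mul, LinearEquiv.mul_apply, map_sub]
  abel

theorem sy_cob (h : LocD S q) (v : Pl) (x : V1 × V1) (hx : x ∈ S.CP v) (z : V1) :
    S.sy v x (S.cob v z) = 0 := by
  obtain ⟨c, hcf, hc, rfl⟩ := hx
  have h1 : S.cob v z = S.loc v (fun t => S.ac t z - z) := rfl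
  rw [h1, h.sy_loc v hc, inv_congr (h.sg_mem v) (h.phi_mem v) (q v)
    fun s hs t ht => cup_cob S.e h.e_inv hc z hs ht, inv_cob (h.q_odd v)
      (fun s => S.e (c s) (S.ac s z))]
  rw [h.tf_rel v hcf, h.ac_rel v]

/-- The value at `sg` of a cocycle at a good place is fixed by Frobenius. -/
theorem fix_fst (h : LocD S q) (v : Pl) (hv : v ∈ S.good) (y : V1 × V1) (hy : y ∈ S.CP v) :
    S.ac (S.phi v) y.1 = y.1 := by
  obtain ⟨d, hdf, hd, rfl⟩ := hy
  have h1 := h.tf_rel v hdf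
  rw [hd _ (h.phi_mem v) _ (h.sg_mem v), hd _ ((S.D v).pow_mem (h.sg_mem v) _) _ (h.phi_mem v),
    Coc.pow hd (h.sg_mem v), map_pow, h.ac_good v hv, one_pow] at h1
  have h2 : nrm (1 : V1 ≃ₗ[ZMod 2] V1) (q v) (d (S.sg v)) = d (S.sg v) := by
    rw [nrm_apply]
    simp only [one_pow, LinearEquiv.coe_one, id_eq, sum_const, card_range]
    obtain ⟨m, hm⟩ := h.q_odd v
    rw [hm, add_smul, one_smul, mul_comm, mul_smul, two_smul, ZModModule.add_self, smul_zero,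
      zero_add]
  rw [h2] at h1
  change S.ac (S.phi v) (d (S.sg v)) = d (S.sg v)
  have h3 : (1 : V1 ≃ₗ[ZMod 2] V1) (d (S.phi v)) = d (S.phi v) := rfl
  rw [h3, add_comm] at h1
  exact add_right_cancel h1

theorem sy_unr (h : LocD S q) (v : Pl) (hv : v ∈ S.good) (x : V1 × V1) (_hx : x ∈ S.CP v)
    (y : V1 × V1) (hy : y ∈ S.CP v) (h0 : x.1 = 0) : S.sy v x y = S.e x.2 y.1 := by
  rw [h.sy_eq, syf_apply, h0, h.fix_fst v hv y hy]
  simp

theorem sy_split (h : LocD S q) (v : Pl) (hv : v ∈ S.good) (hp : S.ac (S.phi v) = 1)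
    (x y : V1 × V1) :
    S.sy v x y = S.e x.1 y.2 + S.e x.2 y.1 + S.eps v * S.e x.1 y.1 := by
  rw [h.sy_eq, syf_apply, h.ac_good v hv, hp, h.eps_eq]
  obtain ⟨m, hm⟩ := h.q_odd v
  have hn : ∀ (i : ℕ) (z : V1), nrm (1 : V1 ≃ₗ[ZMod 2] V1) i z = i • z := by
    intro i z
    rw [nrm_apply]
    simp only [one_pow, LinearEquiv.coe_one, id_eq, sum_const, card_range]
  have hz : ∀ z : V1, (1 : V1 ≃ₗ[ZMod 2] V1) z = z := fun _ => rfl
  simp only [one_pow, hz, hn, map_nsmul, LinearMap.smul_apply, nsmul_eq_mul, ← sum_mul]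
  have h1 : ∀ n : ℕ, ∑ i ∈ Ico 1 (n + 1), (i : ZMod 2) = ((n * (n + 1) / 2 : ℕ) : ZMod 2) := by
    intro n
    induction n with
    | zero => simp
    | succ n ih =>
      rw [sum_Ico_succ_top (by omega), ih, ← Nat.cast_add]
      congr 1
      have h5 : (n + 1) * (n + 1 + 1) = n * (n + 1) + 2 * (n + 1) := by ring
      rw [h5, Nat.add_mul_div_left _ _ (by norm_num)]
  rw [hm, h1]
  have h2 : 2 * m * (2 * m + 1) / 2 = m * (2 * m + 1) := by
    rw [mul_assoc]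
    exact Nat.mul_div_cancel_left _ (by norm_num)
  have h4 : (2 * m + 1 - 1) / 2 = m := by omega
  rw [h2, h4]
  push_cast
  have e1 : (2 : ZMod 2) = 0 := by decide
  linear_combination ((m : ZMod 2) * S.e x.1 y.2 + (m : ZMod 2) * m * S.e x.1 y.1) * e1

end LocD

end Pool.Agent.SmN.Loc
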