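import Pool.Agent.Lib.SmN.Loc.Sy

/-!
SMITH with a Galois action on the 2-torsion, local theory: the local pairing `syf` is nondegenerate
on the whole of `V1 × V1`.

* `nrm_inj`: `1 + A + ... + A^(q-1)` is injective if `F A = A^q F`, `q` odd (`q` is prime to the
  order of `A`);
* `syf_nd`, `LocD.nd`: nondegeneracy;
* `syf_cob`: `syf e A F q (A z - z, F z - z) y = e z (F y.1 + nrm A q y.1 + y.2 + A^q y.2)`, the
  argument of `e z` on the right is the obstruction to `y` being the pair of values of a cocycle.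
-/

set_option autoImplicit false

open Finset

namespace Pool.Agent.SmN.Loc

section

variable {V1 : Type*} [AddCommGroup V1] [Module (ZMod 2) V1]

theorem nrm_sub (A : V1 ≃ₗ[ZMod 2] V1) (i : ℕ) (z : V1) : nrm A i (A z - z) = (A ^ i) z - z := by
  induction i with
  | zero =>
    rw [nrm_apply]
    simp
  | succ i ih =>
    rw [nrm_succ, ih, map_sub, pow_succ, LinearEquiv.mul_apply]
    abel

theorem nrm_fix (A : V1 ≃ₗ[ZMod 2] V1) {q : ℕ} (hq : Odd q) {x : V1} (hx : A x = x) :
    nrm A q x = x := by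
  have h1 : ∀ j : ℕ, (A ^ j) x = x := by
    intro j
    induction j with
    | zero => rfl
    | succ j ih => rw [pow_succ, LinearEquiv.mul_apply, hx, ih]
  rw [nrm_apply]
  simp only [h1, sum_const, card_range]
  obtain ⟨m, rfl⟩ := hq
  rw [add_smul, one_smul, mul_comm, mul_smul, two_smul, ZModModule.add_self, smul_zero, zero_add]

theorem nrm_comm (A : V1 ≃ₗ[ZMod 2] V1) (i : ℕ) (x : V1) : nrm A i (A x) = A (nrm A i x) := by
  rw [nrm_apply, nrm_apply, map_sum]
  refine sum_congr rfl fun j _ => ?_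
  rw [← LinearEquiv.mul_apply, ← LinearEquiv.mul_apply, ← pow_succ, ← pow_succ']

theorem nrm_inj [Finite V1] {A F : V1 ≃ₗ[ZMod 2] V1} {q : ℕ} (hq : Odd q) (h : F * A = A ^ q * F) :
    Function.Injective (nrm A q) := by
  rw [injective_iff_map_eq_zero]
  intro x hx
  have hfin : Finite (V1 ≃ₗ[ZMod 2] V1) := DFunLike.finite _
  have h1 : (A ^ q) x = x := by
    have h2 := nrm_sub A q x
    rw [map_sub, nrm_comm, hx, map_zero, sub_zero] at h2
    exact (sub_eq_zero.mp h2.symm)
  have hcop : q.Coprime (orderOf A) := by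
    have h3 : orderOf (A ^ q) = orderOf A := by
      have h4 : A ^ q = F * A * F⁻¹ := by rw [h, mul_inv_cancel_right]
      rw [h4]
      exact (MulAut.conj F).orderOf_eq A
    rw [orderOf_pow] at h3
    have hpos : 0 < orderOf A := orderOf_pos A
    have h5 : Nat.gcd (orderOf A) q ∣ orderOf A := Nat.gcd_dvd_left _ _
    have h6 : orderOf A = orderOf A * Nat.gcd (orderOf A) q := by
      conv_lhs => rw [← Nat.div_mul_cancel h5, h3]
    have h7 : Nat.gcd (orderOf A) q = 1 := by
      have := Nat.eq_of_mul_eq_mul_left hpos ((mul_one _).trans h6)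
      exact this.symm
    rw [Nat.coprime_comm]
    exact h7
  obtain ⟨m, hm⟩ := exists_pow_eq_self_of_coprime hcop
  have h2 : ∀ j : ℕ, ((A ^ q) ^ j) x = x := by
    intro j
    induction j with
    | zero => rfl
    | succ j ih => rw [pow_succ, LinearEquiv.mul_apply, h1, ih]
  have h3 : A x = x := by
    conv_lhs => rw [← hm]
    exact h2 m
  rwa [nrm_fix A hq h3] at hx

theorem syf_nd [Finite V1] {e : V1 →ₗ[ZMod 2] V1 →ₗ[ZMod 2] ZMod 2}
    (hnd : ∀ w, (∀ w', e w w' = 0) → w = 0) {A F : V1 ≃ₗ[ZMod 2] V1} {q : ℕ} (hq : Odd q)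
    (h : F * A = A ^ q * F) (x : V1 × V1) (hx : ∀ y, syf e A F q x y = 0) : x = 0 := by
  have h1 : x.1 = 0 := by
    have h2 : nrm A q x.1 = 0 := by
      refine hnd _ fun w' => ?_
      have h3 := hx (0, (A ^ q).symm w')
      rw [syf_apply] at h3
      simp only [map_zero, sum_const_zero, add_zero, zero_add, LinearEquiv.apply_symm_apply] at h3
      exact h3
    exact nrm_inj hq h (h2.trans (map_zero _).symm)
  refine Prod.ext h1 (hnd _ fun w' => ?_)
  have h3 := hx (F.symm w', 0)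
  rw [syf_apply, h1] at h3
  simpa using h3

/-- The pairing with a coboundary. -/
theorem syf_cob {e : V1 →ₗ[ZMod 2] V1 →ₗ[ZMod 2] ZMod 2} {A F : V1 ≃ₗ[ZMod 2] V1}
    (hA : ∀ w w', e (A w) (A w') = e w w') (hF : ∀ w w', e (F w) (F w') = e w w') {q : ℕ}
    (hq : Odd q) (z : V1) (y : V1 × V1) :
    syf e A F q (A z - z, F z - z) y = e z (F y.1 + nrm A q y.1 + y.2 + (A ^ q) y.2) := by
  have hAi : ∀ (i : ℕ) (w w' : V1), e ((A ^ i) w) ((A ^ i) w') = e w w' := by
    intro i
    induction i with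
    | zero => intro w w'; rfl
    | succ i ih =>
      intro w w'
      rw [pow_succ, LinearEquiv.mul_apply, LinearEquiv.mul_apply, ih, hA]
  obtain ⟨m, hm⟩ := hq
  have h1 : ∑ i ∈ Ico 1 q, e (nrm A i (A z - z)) ((A ^ i) y.1) =
      e z (nrm A q y.1) + e z y.1 := by
    have h2 : ∀ i ∈ Ico 1 q, e (nrm A i (A z - z)) ((A ^ i) y.1) = e z y.1 + e z ((A ^ i) y.1) := by
      intro i _
      rw [nrm_sub, map_sub, LinearMap.sub_apply, hAi, CharTwo.sub_eq_add]
    have h6 : nrm A q y.1 = y.1 + ∑ j ∈ Ico 1 q, (A ^ j) y.1 := by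
      rw [nrm_apply, range_eq_Ico, sum_eq_sum_Ico_succ_bot (by omega)]
      rfl
    rw [sum_congr rfl h2, sum_add_distrib, sum_const, Nat.card_Ico, h6, map_add, map_sum, hm]
    have h3 : (2 * m + 1 - 1) • e z y.1 = 0 := by
      rw [Nat.add_sub_cancel, mul_smul, two_smul, CharTwo.add_self_eq_zero]
    rw [h3, zero_add]
    have h5 := CharTwo.add_self_eq_zero (e z y.1)
    linear_combination -h5
  rw [syf_apply]
  beta_reduce
  rw [h1, nrm_sub, map_sub, map_sub, LinearMap.sub_apply, LinearMap.sub_apply, hF, hAi]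
  simp only [map_add]
  simp only [CharTwo.sub_eq_add]
  have h5 := CharTwo.add_self_eq_zero (e z y.1)
  linear_combination h5

end

namespace LocD

variable {G V V1 Pl : Type*} [Group G] [AddCommGroup V] [DistribMulAction G V]
  [AddCommGroup V1] [Module (ZMod 2) V1] {S : Sys G V V1 Pl} {q : Pl → ℕ}

theorem nd [Finite V1] (h : LocD S q) (hnd : ∀ w, (∀ w', S.e w w' = 0) → w = 0) (v : Pl)
    (x : V1 × V1) (hx : ∀ y, S.sy v x y = 0) : x = 0 := by
  rw [h.sy_eq] at hx
  refine syf_nd hnd (h.q_odd v) ?_ x hx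
  have h1 := h.ac_rel v
  rw [map_mul, map_mul, map_pow] at h1
  exact h1

end LocD

end Pool.Agent.SmN.Loc
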