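import Pool.Agent.Lib.SmN.Loc.Inv

/-!
SMITH with a Galois action on the 2-torsion, local theory: the invariant of a 2-cocycle with values
in a permutation module (first part of the orbit formula).

`H` a group with elements `sg`, `ph`, `ph sg = sg ^ q ph`, `q` odd; `R` an `H`-set; `B` a 2-cocycle of
`H` with values in the functions `R → ZMod 2`. We work in the group of permutations of
`(R → ZMod 2) × H` with the elements `T s` and `tau a` satisfying `T s * T t = tau (B s t) * T (s t)`.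
Main result `inv_stab`: if `sg ^ e` acts trivially on `R` and `sg ^ j * ph ^ f` fixes `r` then
`inv (sg ^ e) (sg ^ j * ph ^ f) (q ^ f) (B · · r)` is the sum over `i < f`, `l < e` of the values of
`r' ↦ inv sg ph q (B · · r')` at `(sg ^ j ph ^ i sg ^ (q l))⁻¹ r`.
-/

set_option autoImplicit false

open Finset

namespace Pool.Agent.SmN.Loc

variable {H R : Type*} [Group H] [MulAction H R]

/-- The action on functions. -/
def sh (s : H) (a : R → ZMod 2) : R → ZMod 2 := fun r => a (s⁻¹ • r)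

theorem sh_add (s : H) (a b : R → ZMod 2) : sh s (a + b) = sh s a + sh s b := rfl

theorem sh_mul (s t : H) (a : R → ZMod 2) : sh (s * t) a = sh s (sh t a) := by
  funext r
  simp only [sh, mul_inv_rev, mul_smul]

theorem sh_one (a : R → ZMod 2) : sh (1 : H) a = a := by
  funext r
  simp [sh]

theorem sh_sum {ι : Type*} (s : H) (J : Finset ι) (a : ι → R → ZMod 2) :
    sh s (∑ i ∈ J, a i) = ∑ i ∈ J, sh s (a i) := by
  funext r
  simp only [sh, Finset.sum_apply]

theorem two_fun (a : R → ZMod 2) : a + a = 0 := by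
  funext r
  exact CharTwo.add_self_eq_zero _

/-- 2-cocycles with values in the functions on `R`. -/
def Coc2 (B : H → H → R → ZMod 2) : Prop :=
  ∀ s t u, B s t + B (s * t) u = sh s (B t u) + B s (t * u)

/-- Translation. -/
def tau (H : Type*) (a : R → ZMod 2) : Equiv.Perm ((R → ZMod 2) × H) where
  toFun x := (x.1 + a, x.2)
  invFun x := (x.1 + a, x.2)
  left_inv x := by
    ext1
    · change x.1 + a + a = x.1
      rw [add_assoc, two_fun, add_zero]
    · rfl
  right_inv x := by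
    ext1
    · change x.1 + a + a = x.1
      rw [add_assoc, two_fun, add_zero]
    · rfl

/-- The operator attached to `s`. -/
def T (B : H → H → R → ZMod 2) (s : H) : Equiv.Perm ((R → ZMod 2) × H) where
  toFun x := (sh s x.1 + B s x.2, s * x.2)
  invFun x := (sh s⁻¹ (x.1 + B s (s⁻¹ * x.2)), s⁻¹ * x.2)
  left_inv x := by
    ext1
    · change sh s⁻¹ (sh s x.1 + B s x.2 + B s (s⁻¹ * (s * x.2))) = x.1
      rw [inv_mul_cancel_left, add_assoc, two_fun, add_zero, ← sh_mul, inv_mul_cancel, sh_one]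
    · exact inv_mul_cancel_left _ _
  right_inv x := by
    ext1
    · change sh s (sh s⁻¹ (x.1 + B s (s⁻¹ * x.2))) + B s (s⁻¹ * x.2) = x.1
      rw [← sh_mul, mul_inv_cancel, sh_one, add_assoc, two_fun, add_zero]
    · exact mul_inv_cancel_left _ _

theorem tau_apply (a : R → ZMod 2) (x : (R → ZMod 2) × H) : tau H a x = (x.1 + a, x.2) := rfl

theorem T_apply (B : H → H → R → ZMod 2) (s : H) (x : (R → ZMod 2) × H) :
    T B s x = (sh s x.1 + B s x.2, s * x.2) := rfl

theorem tau_mul (a b : R → ZMod 2) : tau H a * tau H b = tau H (a + b) := by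
  ext1 x
  rw [Equiv.Perm.mul_apply, tau_apply, tau_apply, tau_apply]
  ext1
  · change x.1 + b + a = x.1 + (a + b)
    abel
  · rfl

theorem tau_zero : tau H (0 : R → ZMod 2) = 1 := by
  ext1 x
  rw [tau_apply, add_zero]
  rfl

theorem tau_inj {a b : R → ZMod 2} (h : tau H a = tau H b) : a = b := by
  have h1 := congrArg (fun f : Equiv.Perm ((R → ZMod 2) × H) => (f (0, 1)).1) h
  simpa [tau_apply] using h1

variable {B : H → H → R → ZMod 2}

theorem T_tau (s : H) (a : R → ZMod 2) : T B s * tau H a = tau H (sh s a) * T B s := by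
  ext1 x
  rw [Equiv.Perm.mul_apply, Equiv.Perm.mul_apply, tau_apply, T_apply, T_apply, tau_apply]
  ext1
  · change sh s (x.1 + a) + B s x.2 = sh s x.1 + B s x.2 + sh s a
    rw [sh_add]
    abel
  · rfl

theorem T_mul (hB : Coc2 B) (s t : H) : T B s * T B t = tau H (B s t) * T B (s * t) := by
  ext1 x
  rw [Equiv.Perm.mul_apply, Equiv.Perm.mul_apply, T_apply, T_apply, T_apply, tau_apply]
  ext1
  · change sh s (sh t x.1 + B t x.2) + B s (t * x.2) = sh (s * t) x.1 + B (s * t) x.2 + B s t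
    rw [sh_add, add_assoc, ← hB s t x.2, sh_mul]
    abel
  · exact (mul_assoc s t x.2).symm

theorem T_pow_tau (s : H) (n : ℕ) (a : R → ZMod 2) :
    T B s ^ n * tau H a = tau H (sh (s ^ n) a) * T B s ^ n := by
  induction n with
  | zero => simp [sh_one]
  | succ n ih =>
    rw [pow_succ', mul_assoc, ih, ← mul_assoc, T_tau, mul_assoc, ← sh_mul, ← pow_succ', ← pow_succ']

theorem T_pow (hB : Coc2 B) (s : H) (n : ℕ) :
    T B s ^ (n + 1) = tau H (∑ i ∈ Ico 1 (n + 1), B (s ^ i) s) * T B (s ^ (n + 1)) := by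
  induction n with
  | zero => simp [tau_zero]
  | succ n ih =>
    rw [pow_succ, ih, mul_assoc, T_mul hB, ← mul_assoc, tau_mul, ← pow_succ,
      sum_Ico_succ_top (by omega : 1 ≤ n + 1)]

/-- The invariant with values in the functions on `R`. -/
def invV (sg ph : H) (q : ℕ) (B : H → H → R → ZMod 2) (r : R) : ZMod 2 :=
  inv sg ph q (fun s t => B s t r)

theorem invV_eq (sg ph : H) (q : ℕ) :
    invV sg ph q B = B ph sg + B (sg ^ q) ph + ∑ i ∈ Ico 1 q, B (sg ^ i) sg := by
  funext r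
  simp only [invV, inv, Pi.add_apply, Finset.sum_apply]

theorem T_rel (hB : Coc2 B) {sg ph : H} {q : ℕ} (hq : 1 ≤ q) (h : ph * sg = sg ^ q * ph) :
    T B ph * T B sg = tau H (invV sg ph q B) * T B sg ^ q * T B ph := by
  obtain ⟨n, rfl⟩ : ∃ n, q = n + 1 := ⟨q - 1, by omega⟩
  rw [T_mul hB, T_pow hB, h, ← mul_assoc, tau_mul, mul_assoc, T_mul hB, ← mul_assoc, tau_mul,
    invV_eq]
  congr 2
  have h1 := two_fun (∑ i ∈ Ico 1 (n + 1), B (sg ^ i) sg)
  have h2 := two_fun (B (sg ^ (n + 1)) ph)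
  generalize (∑ i ∈ Ico 1 (n + 1), B (sg ^ i) sg) = u at *
  generalize B (sg ^ (n + 1)) ph = v at *
  have h3 : B ph sg + v + u + u + v = B ph sg + (v + v) + (u + u) := by abel
  rw [h3, h1, h2, add_zero, add_zero]

theorem T_rel_pow (hB : Coc2 B) {sg ph : H} {q : ℕ} (hq : 1 ≤ q) (h : ph * sg = sg ^ q * ph)
    (m : ℕ) : T B ph * T B sg ^ m =
      tau H (∑ l ∈ range m, sh (sg ^ (q * l)) (invV sg ph q B)) * T B sg ^ (q * m) * T B ph := by
  induction m with
  | zero => simp [tau_zero]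
  | succ m ih =>
    rw [pow_succ, ← mul_assoc, ih, mul_assoc, T_rel hB hq h, mul_assoc, sum_range_succ,
      ← tau_mul, mul_add, mul_one, pow_add]
    simp only [mul_assoc]
    congr 1
    rw [← mul_assoc (T B sg ^ (q * m)), T_pow_tau]
    simp only [mul_assoc]

/-- Sum of a periodic function over an odd number of periods. -/
theorem sum_period (b : ℕ → R → ZMod 2) (e : ℕ) (hb : ∀ l, b (l + e) = b l) (m : ℕ) (hm : Odd m) :
    ∑ l ∈ range (e * m), b l = ∑ l ∈ range e, b l := by
  have hb' : ∀ n l, b (l + e * n) = b l := by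
    intro n
    induction n with
    | zero => simp
    | succ n ih =>
      intro l
      rw [mul_add, mul_one, ← add_assoc, hb, ih]
  have key : ∀ n, ∑ l ∈ range (e * n), b l = n • ∑ l ∈ range e, b l := by
    intro n
    induction n with
    | zero => simp
    | succ n ih =>
      rw [mul_add, mul_one, sum_range_add, ih, add_smul, one_smul]
      congr 1
      exact sum_congr rfl fun l _ => by rw [add_comm, hb' n l]
  rw [key]
  obtain ⟨k, rfl⟩ := hm
  rw [add_smul, one_smul, mul_comm, mul_smul, two_smul, two_fun, smul_zero, zero_add]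

theorem T_rel_e (hB : Coc2 B) {sg ph : H} {q : ℕ} (hq : Odd q) (h : ph * sg = sg ^ q * ph)
    {e : ℕ} (he : ∀ r : R, sg ^ e • r = r) (i : ℕ) :
    T B ph ^ i * T B sg ^ e =
      tau H (∑ n ∈ range i, sh (ph ^ n) (∑ l ∈ range e, sh (sg ^ (q * l)) (invV sg ph q B))) *
        T B sg ^ (e * q ^ i) * T B ph ^ i := by
  have he' : ∀ (n : ℕ) (a : R → ZMod 2), sh (sg ^ (e * n)) a = a := by
    intro n a
    funext r
    change a ((sg ^ (e * n))⁻¹ • r) = a r
    congr 1
    rw [inv_smul_eq_iff, pow_mul]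
    induction n with
    | zero => simp
    | succ n ih => rw [pow_succ, mul_smul, he, ← ih]
  induction i with
  | zero => simp [tau_zero]
  | succ i ih =>
    rw [pow_succ', mul_assoc, ih]
    simp only [← mul_assoc]
    rw [T_tau, mul_assoc (tau H _) (T B ph), T_rel_pow hB hq.pos h]
    have h1 : ∑ l ∈ range (e * q ^ i), sh (sg ^ (q * l)) (invV sg ph q B) =
        ∑ l ∈ range e, sh (sg ^ (q * l)) (invV sg ph q B) := by
      refine sum_period (fun l => sh (sg ^ (q * l)) (invV sg ph q B)) e (fun l => ?_) _ hq.pow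
      rw [mul_add, pow_add, sh_mul, mul_comm q e, he']
    rw [h1]
    simp only [← mul_assoc]
    rw [tau_mul, sh_sum]
    have h2 : (∑ n ∈ range i, sh ph (sh (ph ^ n)
        (∑ l ∈ range e, sh (sg ^ (q * l)) (invV sg ph q B)))) +
        ∑ l ∈ range e, sh (sg ^ (q * l)) (invV sg ph q B) =
        ∑ n ∈ range (i + 1), sh (ph ^ n)
          (∑ l ∈ range e, sh (sg ^ (q * l)) (invV sg ph q B)) := by
      rw [sum_range_succ', pow_zero, sh_one]
      congr 1
      exact sum_congr rfl fun n _ => by rw [pow_succ', sh_mul]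
    rw [h2]
    have h3 : q * e * q ^ i = e * q ^ (i + 1) := by ring
    rw [h3]

/-- First part of the orbit formula. -/
theorem inv_stab (hB : Coc2 B) {sg ph : H} {q : ℕ} (hq : Odd q) (h : ph * sg = sg ^ q * ph)
    {e : ℕ} (he0 : 0 < e) (he : ∀ r : R, sg ^ e • r = r) (f j : ℕ) {r : R}
    (hr : (sg ^ j * ph ^ f) • r = r) :
    inv (sg ^ e) (sg ^ j * ph ^ f) (q ^ f) (fun s t => B s t r) =
      ∑ i ∈ range f, ∑ l ∈ range e,
        inv sg ph q (fun s t => B s t ((sg ^ j * ph ^ i * sg ^ (q * l))⁻¹ • r)) := by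
  -- the relation in `H`
  have hpow : ∀ m : ℕ, ph * sg ^ m = sg ^ (q * m) * ph := by
    intro m
    induction m with
    | zero => simp
    | succ m ih => rw [pow_succ, ← mul_assoc, ih, mul_assoc, h, ← mul_assoc, ← pow_add, mul_add, mul_one]
  have hpow2 : ∀ i m : ℕ, ph ^ i * sg ^ m = sg ^ (q ^ i * m) * ph ^ i := by
    intro i
    induction i with
    | zero => simp
    | succ i ih =>
      intro m
      rw [pow_succ, mul_assoc, hpow, ← mul_assoc, ih, mul_assoc]
      congr 2
      ring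
  have hrel : (sg ^ j * ph ^ f) * sg ^ e = (sg ^ e) ^ (q ^ f) * (sg ^ j * ph ^ f) := by
    rw [mul_assoc, hpow2, ← mul_assoc, ← pow_add, ← pow_mul, ← mul_assoc, ← pow_add]
    congr 2
    ring
  set σ := sg ^ e with hσ
  set φ := sg ^ j * ph ^ f with hφ
  set w := invV sg ph q B with hw
  set a' := sh (sg ^ j) (∑ n ∈ range f, sh (ph ^ n) (∑ l ∈ range e, sh (sg ^ (q * l)) w)) with ha'
  -- lifts
  obtain ⟨b, hb⟩ : ∃ b, T B sg ^ e = tau H b * T B σ := by
    obtain ⟨n, rfl⟩ : ∃ n, e = n + 1 := ⟨e - 1, by omega⟩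
    exact ⟨_, T_pow hB sg n⟩
  have hlift : ∀ (s : H) (n : ℕ), ∃ b, T B s ^ n = tau H b * T B (s ^ n) := by
    intro s n
    cases n with
    | zero =>
      refine ⟨B 1 1, ?_⟩
      have h1 := T_mul hB (1 : H) 1
      rw [one_mul] at h1
      have h2 : tau H (B 1 1) = T B 1 := mul_right_cancel h1.symm
      rw [pow_zero, pow_zero, ← h2, tau_mul, two_fun, tau_zero]
    | succ n => exact ⟨_, T_pow hB s n⟩
  obtain ⟨b', hb'⟩ : ∃ b', T B sg ^ j * T B ph ^ f = tau H b' * T B φ := by
    obtain ⟨b1, h1⟩ := hlift sg j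
    obtain ⟨b2, h2⟩ := hlift ph f
    refine ⟨b1 + sh (sg ^ j) b2 + B (sg ^ j) (ph ^ f), ?_⟩
    rw [h1, h2, ← tau_mul, ← tau_mul]
    have h3 : tau H b1 * T B (sg ^ j) * (tau H b2 * T B (ph ^ f)) =
        tau H b1 * ((T B (sg ^ j) * tau H b2) * T B (ph ^ f)) := by group
    rw [h3, T_tau, mul_assoc (tau H (sh (sg ^ j) b2)), T_mul hB, hφ]
    simp only [mul_assoc]
  have hQ : 1 ≤ q ^ f := hq.pow.pos
  have h1 : T B φ * T B σ = tau H (invV σ φ (q ^ f) B) * T B σ ^ q ^ f * T B φ :=
    T_rel hB hQ hrel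
  have h2 : (T B sg ^ j * T B ph ^ f) * T B sg ^ e =
      tau H a' * T B sg ^ (e * q ^ f) * (T B sg ^ j * T B ph ^ f) := by
    rw [mul_assoc, T_rel_e hB hq h he f]
    simp only [← mul_assoc]
    rw [T_pow_tau, mul_assoc (tau H _) (T B sg ^ j) (T B sg ^ (e * q ^ f)), ← pow_add,
      mul_assoc (tau H _) (T B sg ^ (e * q ^ f)) (T B sg ^ j), ← pow_add, add_comm j]
  have h4 : ∀ m : ℕ, (tau H b * T B σ) ^ m = tau H (∑ l ∈ range m, sh (σ ^ l) b) * T B σ ^ m := by
    intro m
    induction m with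
    | zero => simp [tau_zero]
    | succ m ih =>
      rw [pow_succ, ih, sum_range_succ, ← tau_mul]
      have : tau H (∑ l ∈ range m, sh (σ ^ l) b) * T B σ ^ m * (tau H b * T B σ) =
          tau H (∑ l ∈ range m, sh (σ ^ l) b) * ((T B σ ^ m * tau H b) * T B σ) := by group
      rw [this, T_pow_tau, pow_succ]
      group
  rw [hb', hb, pow_mul, hb, h4] at h2
  have h5 : tau H b' * T B φ * (tau H b * T B σ) =
      tau H (b' + sh φ b + invV σ φ (q ^ f) B) * (T B σ ^ q ^ f * T B φ) := by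
    have : tau H b' * T B φ * (tau H b * T B σ) = tau H b' * ((T B φ * tau H b) * T B σ) := by group
    rw [this, T_tau, mul_assoc (tau H (sh φ b)), h1, ← tau_mul, ← tau_mul]
    group
  have h6 : tau H a' * (tau H (∑ l ∈ range (q ^ f), sh (σ ^ l) b) * T B σ ^ q ^ f) *
      (tau H b' * T B φ) =
      tau H (a' + (∑ l ∈ range (q ^ f), sh (σ ^ l) b) + sh (σ ^ q ^ f) b') *
        (T B σ ^ q ^ f * T B φ) := by
    have : tau H a' * (tau H (∑ l ∈ range (q ^ f), sh (σ ^ l) b) * T B σ ^ q ^ f) *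
      (tau H b' * T B φ) = tau H a' * tau H (∑ l ∈ range (q ^ f), sh (σ ^ l) b) *
        ((T B σ ^ q ^ f * tau H b') * T B φ) := by group
    rw [this, T_pow_tau, ← tau_mul, ← tau_mul]
    group
  rw [h5, h6] at h2
  have h7 := tau_inj (mul_right_cancel h2)
  have h8 := congrFun h7 r
  -- evaluate at `r`
  have hφr : φ⁻¹ • r = r := by rw [inv_smul_eq_iff, hr]
  have hσr : ∀ n : ℕ, (σ ^ n)⁻¹ • r = r := by
    intro n
    rw [inv_smul_eq_iff]
    induction n with
    | zero => simp
    | succ n ih => rw [pow_succ, mul_smul, he, ← ih]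
  simp only [Pi.add_apply, Finset.sum_apply] at h8
  have e1 : sh φ b r = b r := by rw [sh, hφr]
  have e2 : ∀ (n : ℕ) (c : R → ZMod 2), sh (σ ^ n) c r = c r := by
    intro n c
    rw [sh, hσr]
  rw [e1, e2] at h8
  simp only [e2, sum_const, card_range, nsmul_eq_mul] at h8
  have e3 : ((q ^ f : ℕ) : ZMod 2) = 1 := by
    have h9 : Odd (q ^ f) := hq.pow
    obtain ⟨k, hk⟩ := h9
    rw [hk]
    push_cast
    have : (2 : ZMod 2) = 0 := by decide
    rw [this]
    ring
  rw [e3, one_mul] at h8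
  have h9 : invV σ φ (q ^ f) B r = a' r := by
    have h3 : ∀ x : ZMod 2, x + x = 0 := fun x => CharTwo.add_self_eq_zero _
    linear_combination h8
  have h10 : a' r = ∑ i ∈ range f, ∑ l ∈ range e,
      w ((sg ^ j * ph ^ i * sg ^ (q * l))⁻¹ • r) := by
    rw [ha', sh_sum, Finset.sum_apply]
    refine sum_congr rfl fun i _ => ?_
    rw [sh_sum, sh_sum, Finset.sum_apply]
    refine sum_congr rfl fun l _ => ?_
    rw [← sh_mul, ← sh_mul]
    rfl
  exact h9.trans h10

end Pool.Agent.SmN.Loc
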