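import Pool.Agent.Lib.SmN.P.Coh
import Pool.Agent.Lib.SmN.Loc.Sy

/-!
# SMITH with action on the 2-torsion, local theory: invariants of 2-cochains with values in `M`

`M` = 2-power roots of unity, written additively: the tame generator `sg` acts trivially on `M` and
the Frobenius `ph` as `q`. `invM sg ph q f = f(ph, sg) - f(sg^q, ph) - ∑_(1 ≤ i < q) f(sg^i, sg)` is
additive, kills the coboundaries and is `hf (inv z)` for `f = hf ∘ z`.

`Sys.RecM`: the sum of the invariants of a global cocycle with values in `M` is zero if all of them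
are killed by 2. Consequences: `sy_zero_of_coh`, `recipM_of_recM`, `finsum_qf`.
-/

set_option autoImplicit false

open Finset

namespace Pool.Agent.SmN.Loc

section invM

variable {G M : Type*} [Group G] [AddCommGroup M] [DistribMulAction G M]

omit [DistribMulAction G M] in
/-- The local invariant of a 2-cochain with values in `M`. -/
def invM (sg ph : G) (q : ℕ) (f : G → G → M) : M :=
  f ph sg - f (sg ^ q) ph - ∑ i ∈ Ico 1 q, f (sg ^ i) sg

omit [DistribMulAction G M] in
theorem invM_add (sg ph : G) (q : ℕ) (f f' : G → G → M) :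
    invM sg ph q (fun s t => f s t + f' s t) = invM sg ph q f + invM sg ph q f' := by
  unfold invM
  rw [sum_add_distrib]
  beta_reduce
  abel

omit [DistribMulAction G M] in
theorem invM_zero (sg ph : G) (q : ℕ) : invM sg ph q (fun _ _ => (0 : M)) = 0 := by
  simp [invM]

omit [DistribMulAction G M] in
theorem invM_nsmul (sg ph : G) (q n : ℕ) (f : G → G → M) :
    invM sg ph q (fun s t => n • f s t) = n • invM sg ph q f := by
  unfold invM
  rw [smul_sub, smul_sub, smul_sum]

omit [DistribMulAction G M] in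
theorem invM_congr {D : Subgroup G} {sg ph : G} (hs : sg ∈ D) (hp : ph ∈ D) (q : ℕ)
    {f f' : G → G → M} (h : ∀ s ∈ D, ∀ t ∈ D, f s t = f' s t) :
    invM sg ph q f = invM sg ph q f' := by
  unfold invM
  rw [h _ hp _ hs, h _ (D.pow_mem hs q) _ hp,
    sum_congr rfl fun i _ => h _ (D.pow_mem hs i) _ hs]

omit [DistribMulAction G M] in
theorem invM_hf (sg ph : G) (q : ℕ) (hf : ZMod 2 →+ M) (z : G → G → ZMod 2) :
    invM sg ph q (fun s t => hf (z s t)) = hf (inv sg ph q z) := by
  have h2 : ∀ a, -hf a = hf a := fun a => by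
    rw [← map_neg]
    congr 1
    revert a
    decide
  unfold invM inv
  rw [sub_eq_add_neg, sub_eq_add_neg, ← map_sum, h2, h2, map_add, map_add]

/-- The invariant of a coboundary is zero. -/
theorem invM_d {sg ph : G} {q : ℕ} (hq : 1 ≤ q) (hs : ∀ m : M, sg • m = m)
    (hp : ∀ m : M, ph • m = q • m) (b : G → M) (h : b (ph * sg) = b (sg ^ q * ph)) :
    invM sg ph q (fun s t => b s + s • b t - b (s * t)) = 0 := by
  have hsi : ∀ (i : ℕ) (m : M), sg ^ i • m = m := by
    intro i
    induction i with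
    | zero => intro m; rw [pow_zero, one_smul]
    | succ i ih => intro m; rw [pow_succ, mul_smul, hs, ih]
  have key : ∀ m : ℕ, ∑ i ∈ Ico 1 (m + 1), (b (sg ^ i) + sg ^ i • b sg - b (sg ^ i * sg)) =
      m • b sg + b sg - b (sg ^ (m + 1)) := by
    intro m
    induction m with
    | zero => simp
    | succ m ih =>
      rw [sum_Ico_succ_top (by omega), ih, ← pow_succ, hsi, succ_nsmul]
      abel
  obtain ⟨m, rfl⟩ : ∃ m, q = m + 1 := ⟨q - 1, by omega⟩
  unfold invM
  rw [key]
  beta_reduce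
  rw [h, hp, hsi, succ_nsmul]
  abel

end invM

end Pool.Agent.SmN.Loc

namespace Pool.Agent.SmN

open Loc

variable {G V V1 Pl M : Type*} [Group G] [AddCommGroup V] [DistribMulAction G V]
  [AddCommGroup V1] [Module (ZMod 2) V1]
  [AddCommGroup M] [DistribMulAction G M]

/-- The element of `ZMod 2` with image `m`. -/
noncomputable def qf (hf : ZMod 2 →+ M) (m : M) : ZMod 2 := Function.invFun hf m

namespace Sys

/-- The action on `M`. -/
structure MAct (S : Sys G V V1 Pl) (hf : ZMod 2 →+ M) (q : Pl → ℕ) : Prop where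
  sg : ∀ (v : Pl) (m : M), S.sg v • m = m
  phi : ∀ (v : Pl) (m : M), S.phi v • m = q v • m
  inj : Function.Injective hf
  two : ∀ m : M, (2 : ℕ) • m = 0 → ∃ a, hf a = m

/-- The sum of the invariants of a global cocycle with values in `M` is zero if all of them are
killed by 2. -/
def RecM (S : Sys G V V1 Pl) (M : Type*) [AddCommGroup M] [DistribMulAction G M] (q : Pl → ℕ) :
    Prop :=
  ∀ f : G → G → M, S.TF2 f →
    (∀ s t w, f s t + f (s * t) w = s • f t w + f s (t * w)) →
    (∀ v, (2 : ℕ) • invM (S.sg v) (S.phi v) (q v) f = 0) →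
    ∑ᶠ v, invM (S.sg v) (S.phi v) (q v) f = 0

variable {S : Sys G V V1 Pl} {hf : ZMod 2 →+ M} {q : Pl → ℕ}

omit [DistribMulAction G M] in
theorem two_hf' (hf : ZMod 2 →+ M) (a : ZMod 2) : (2 : ℕ) • hf a = 0 := by
  rw [← map_nsmul, two_nsmul, CharTwo.add_self_eq_zero, map_zero]

theorem MAct.qf_hf (hM : S.MAct hf q) (a : ZMod 2) : qf hf (hf a) = a :=
  Function.leftInverse_invFun hM.inj a

theorem MAct.hf_qf (hM : S.MAct hf q) {m : M} (hm : (2 : ℕ) • m = 0) : hf (qf hf m) = m := by
  obtain ⟨a, rfl⟩ := hM.two m hm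
  rw [hM.qf_hf]

theorem MAct.qf_zero (hM : S.MAct hf q) : qf hf (0 : M) = 0 := by
  have := hM.qf_hf 0
  rwa [map_zero] at this

theorem MAct.qf_add (hM : S.MAct hf q) {m m' : M} (hm : (2 : ℕ) • m = 0)
    (hm' : (2 : ℕ) • m' = 0) : qf hf (m + m') = qf hf m + qf hf m' := by
  apply hM.inj
  rw [map_add, hM.hf_qf hm, hM.hf_qf hm', hM.hf_qf (by rw [smul_add, hm, hm', add_zero])]

/-- Cohomologous cochains on `D v` have the same invariant. -/
theorem invM_coh (hL : LocD S q) (hM : S.MAct hf q) (v : Pl) {f f' : G → G → M}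
    (h : S.Coh (S.D v) f f') :
    invM (S.sg v) (S.phi v) (q v) f = invM (S.sg v) (S.phi v) (q v) f' := by
  obtain ⟨b, hb, h1⟩ := h
  rw [invM_congr (hL.sg_mem v) (hL.phi_mem v) (q v) h1, invM_add,
    invM_d (hL.q_odd v).pos (hM.sg v) (hM.phi v) b (hL.tf_rel v hb), add_zero]

/-- The invariant of a cochain which is cohomologous on `D v` to a cup product. -/
theorem invM_cup (hL : LocD S q) (hM : S.MAct hf q) (v : Pl) {f : G → G → M} {x a : G → V1}
    (hx : ∀ s ∈ S.D v, ∀ t ∈ S.D v, x (s * t) = x s + S.ac s (x t))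
    (h : S.Coh (S.D v) f (fun s t => hf (S.e (x s) (S.ac s (a t))))) :
    invM (S.sg v) (S.phi v) (q v) f = hf (S.sy v (S.loc v x) (S.loc v a)) := by
  rw [invM_coh hL hM v h, invM_hf, hL.sy_loc v hx]
  rfl

/-- (L1) If the cup product of two cocycles is a coboundary on `D v` then the local pairing
vanishes. -/
theorem sy_zero_of_coh (hL : LocD S q) (hM : S.MAct hf q) (v : Pl) {x a : G → V1}
    (hx : ∀ s ∈ S.D v, ∀ t ∈ S.D v, x (s * t) = x s + S.ac s (x t))
    (h : S.Coh (S.D v) (fun s t => hf (S.e (x s) (S.ac s (a t)))) (fun _ _ => 0)) :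
    S.sy v (S.loc v x) (S.loc v a) = 0 := by
  apply hM.inj
  obtain ⟨N, hN, -⟩ := hL.ac_fin
  rw [← invM_cup hL hM v hx (f := fun s t => hf (S.e (x s) (S.ac s (a t))))
    ⟨fun _ => 0, ⟨N, hN, fun _ _ _ _ _ => rfl⟩, fun s _ t _ => by simp⟩, invM_coh hL hM v h,
    invM_zero, map_zero]

/-- A sum of invariants killed by 2. -/
theorem finsum_qf (hM : S.MAct hf q) {m : Pl → M} (hm : ∀ v, (2 : ℕ) • m v = 0)
    (h : ∑ᶠ v, m v = 0) : ∑ᶠ v, qf hf (m v) = 0 := by
  by_cases hfin : (Function.support fun v => qf hf (m v)).Finite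
  · apply hM.inj
    rw [map_zero, ← h, AddMonoidHom.map_finsum hf hfin]
    exact finsum_congr fun v => hM.hf_qf (hm v)
  · exact finsum_of_infinite_support hfin

/-- `RecM` implies `RecipM`. -/
theorem recipM_of_recM (hL : LocD S q) (hM : S.MAct hf q) (hR : S.RecM M q) : S.RecipM hf := by
  intro c x a hc hcc hloc
  have h1 : ∀ v, invM (S.sg v) (S.phi v) (q v) c = hf (S.sy v (S.loc v (x v)) (S.loc v (a v))) :=
    fun v => invM_cup hL hM v (hloc v).2.1 (hloc v).2.2.2.2
  have h2 := finsum_qf hM (m := fun v => invM (S.sg v) (S.phi v) (q v) c)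
    (fun v => by rw [h1 v, two_hf']) (hR c hc hcc fun v => by rw [h1 v, two_hf'])
  rw [← h2]
  refine finsum_congr fun v => ?_
  rw [h1 v, hM.qf_hf]

end Sys

end Pool.Agent.SmN
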