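import Pool.Agent.Lib.SmN.Loc.Ext

/-!
SMITH with a Galois action on the 2-torsion, local theory: the orbit formula.

`H` a group generated by `sg`, `ph` with `ph sg = sg ^ q ph`, `q` odd, `R` a finite transitive `H`-set,
`r : R`. Then there are `e, f, j` such that `sg ^ e` and `sg ^ j ph ^ f` fix `r` and for every
2-cocycle `B` of `H` with values in `R → ZMod 2`
`inv (sg ^ e) (sg ^ j ph ^ f) (q ^ f) (B · · r) = ∑ r', inv sg ph q (B · · r')`.
-/

set_option autoImplicit false

open Finset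

namespace Pool.Agent.SmN.Loc

section perm

variable {R : Type*} [Finite R] {σ φ : Equiv.Perm R} {q : ℕ}

theorem semi (h : φ * σ = σ ^ q * φ) (i : ℕ) (a : ℤ) :
    φ ^ i * σ ^ a = σ ^ ((q : ℤ) ^ i * a) * φ ^ i := by
  induction i generalizing a with
  | zero => simp
  | succ i ih =>
    have h1 : SemiconjBy φ σ (σ ^ q) := h
    have h3 : (σ ^ q) ^ a = σ ^ ((q : ℤ) * a) := by rw [zpow_mul, zpow_natCast]
    have h2 : φ * σ ^ a = (σ ^ q) ^ a * φ := (h1.zpow_right a).eq
    rw [pow_succ, mul_assoc, h2, ← mul_assoc, h3, ih, mul_assoc]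
    congr 2
    ring

theorem cop (h : φ * σ = σ ^ q * φ) : Nat.Coprime q (orderOf σ) := by
  have h1 : σ ^ q = φ * σ * φ⁻¹ := by rw [h, mul_inv_cancel_right]
  have h2 : orderOf (σ ^ q) = orderOf σ := by
    rw [h1]
    exact orderOf_injective (MulAut.conj φ).toMonoidHom (MulAut.conj φ).injective σ
  have h3 : 0 < orderOf σ := orderOf_pos σ
  rw [orderOf_pow] at h2
  have h4 := Nat.div_mul_cancel (Nat.gcd_dvd_left (orderOf σ) q)
  rw [h2] at h4
  have h5 : (orderOf σ).gcd q = 1 := by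
    have : orderOf σ * (orderOf σ).gcd q = orderOf σ * 1 := by rw [h4, mul_one]
    exact Nat.eq_of_mul_eq_mul_left h3 this
  rw [Nat.gcd_comm] at h5
  exact h5

/-- The stabilisers in `⟨σ⟩` of the points of a transitive set are trivial. -/
theorem free (h : φ * σ = σ ^ q * φ) {K : Subgroup (Equiv.Perm R)}
    (hK : K = Subgroup.closure {φ, σ}) (ht : ∀ x y : R, ∃ k ∈ K, k x = y) (l : ℤ) (x : R)
    (hx : (σ ^ l) x = x) : σ ^ l = 1 := by
  obtain ⟨m, hm⟩ := exists_pow_eq_self_of_coprime (cop h)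
  have key : ∀ k ∈ K, ∀ x, (σ ^ l) x = x ↔ (σ ^ l) (k x) = k x := by
    intro k hk
    rw [hK] at hk
    induction hk using Subgroup.closure_induction with
    | mem k hk =>
      rcases hk with rfl | rfl
      · intro x
        have h1 := semi h 1 l
        rw [pow_one, pow_one] at h1
        have h2 : ∀ x, k ((σ ^ l) x) = (σ ^ ((q : ℤ) * l)) (k x) := fun x =>
          congrArg (fun f : Equiv.Perm R => f x) h1
        constructor
        · intro h3
          have h4 := h2 x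
          rw [h3] at h4
          have h5 : ∀ n : ℕ, ((σ ^ ((q : ℤ) * l)) ^ n) (k x) = k x := by
            intro n
            induction n with
            | zero => simp
            | succ n ih => rw [pow_succ, Equiv.Perm.mul_apply, ← h4, ih]
          have h6 : (σ ^ ((q : ℤ) * l)) ^ m = σ ^ l := by
            calc (σ ^ ((q : ℤ) * l)) ^ m = ((σ ^ q) ^ m) ^ l := by
                  rw [← zpow_natCast, ← zpow_natCast, ← zpow_natCast, ← zpow_mul, ← zpow_mul,
                    ← zpow_mul]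
                  congr 1
                  ring
              _ = σ ^ l := by rw [hm]
          rw [← h6]
          exact h5 m
        · intro h3
          have h5 : ∀ n : ℕ, ((σ ^ l) ^ n) (k x) = k x := by
            intro n
            induction n with
            | zero => simp
            | succ n ih => rw [pow_succ, Equiv.Perm.mul_apply, h3, ih]
          have h6 : (σ ^ l) ^ q = σ ^ ((q : ℤ) * l) := by
            rw [← zpow_natCast, ← zpow_mul, mul_comm]
          have h4 := h2 x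
          rw [← h6, h5 q] at h4
          exact k.injective h4
      · intro x
        have h2 : (k ^ l) (k x) = k ((k ^ l) x) := by
          rw [← Equiv.Perm.mul_apply, ← Equiv.Perm.mul_apply, ← zpow_add_one, ← zpow_one_add,
            add_comm]
        rw [h2]
        exact ⟨fun h3 => by rw [h3], fun h3 => k.injective h3⟩
    | one => intro x; rfl
    | mul a b _ _ ha hb =>
      intro x
      rw [Equiv.Perm.mul_apply, hb x, ha (b x)]
    | inv a _ ha =>
      intro x
      have h3 := ha (a⁻¹ x)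
      have h4 : a (a⁻¹ x) = x := Equiv.apply_symm_apply a x
      rw [h4] at h3
      exact h3.symm
  ext1 y
  obtain ⟨k, hk, rfl⟩ := ht x y
  exact (key k hk x).1 hx

/-- Every element of `⟨φ, σ⟩` is `σ ^ a φ ^ b`. -/
theorem form (h : φ * σ = σ ^ q * φ) (k : Equiv.Perm R)
    (hk : k ∈ Subgroup.closure ({φ, σ} : Set (Equiv.Perm R))) :
    ∃ (a : ℤ) (b : ℕ), k = σ ^ a * φ ^ b := by
  have hmul : ∀ k k' : Equiv.Perm R, (∃ (a : ℤ) (b : ℕ), k = σ ^ a * φ ^ b) →
      (∃ (a : ℤ) (b : ℕ), k' = σ ^ a * φ ^ b) → ∃ (a : ℤ) (b : ℕ), k * k' = σ ^ a * φ ^ b := by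
    rintro _ _ ⟨a, b, rfl⟩ ⟨c, d, rfl⟩
    refine ⟨a + (q : ℤ) ^ b * c, b + d, ?_⟩
    rw [mul_assoc, ← mul_assoc (φ ^ b), semi h, mul_assoc, ← mul_assoc, ← zpow_add, ← pow_add]
  have hone : ∃ (a : ℤ) (b : ℕ), (1 : Equiv.Perm R) = σ ^ a * φ ^ b := ⟨0, 0, by simp⟩
  induction hk using Subgroup.closure_induction with
  | mem k hk =>
    rcases hk with rfl | rfl
    · exact ⟨0, 1, by simp⟩
    · exact ⟨1, 0, by simp⟩
  | one => exact hone
  | mul a b _ _ ha hb => exact hmul a b ha hb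
  | inv a _ ha =>
    have h1 : ∀ n : ℕ, ∃ (c : ℤ) (b : ℕ), a ^ n = σ ^ c * φ ^ b := by
      intro n
      induction n with
      | zero => rw [pow_zero]; exact hone
      | succ n ih => rw [pow_succ]; exact hmul _ _ ih ha
    have h2 : a⁻¹ = a ^ (orderOf a - 1) := by
      rw [inv_eq_iff_mul_eq_one, ← pow_succ', Nat.sub_add_cancel (orderOf_pos a),
        pow_orderOf_eq_one]
    rw [h2]
    exact h1 _

/-- The bijection behind the orbit formula. -/
theorem exists_efj [Fintype R] (h : φ * σ = σ ^ q * φ)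
    (ht : ∀ x y : R, ∃ k ∈ Subgroup.closure ({φ, σ} : Set (Equiv.Perm R)), k x = y) (r : R) :
    ∃ e f j : ℕ, 0 < e ∧ 0 < f ∧ σ ^ e = 1 ∧ (σ ^ j * φ ^ f) r = r ∧
      (∀ l : ℤ, (σ ^ l) r = r → (e : ℤ) ∣ l) ∧
      (∀ (n : ℕ) (a : ℤ), 0 < n → (σ ^ a * φ ^ n) r = r → f ≤ n) ∧
      ∀ w : R → ZMod 2, ∑ i ∈ range f, ∑ l ∈ range e, w ((σ ^ j * φ ^ i * σ ^ (q * l))⁻¹ r) =
        ∑ r', w r' := by
  classical
  have hfree := fun l x hx => free h rfl ht l x hx
  have he0 : 0 < orderOf σ := orderOf_pos σ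
  have hdvd : ∀ (l : ℤ) (x : R), (σ ^ l) x = x → (orderOf σ : ℤ) ∣ l := fun l x hx =>
    orderOf_dvd_iff_zpow_eq_one.2 (hfree l x hx)
  -- `f`
  have hex : ∃ n : ℕ, 0 < n ∧ ∃ a : ℤ, (σ ^ a * φ ^ n) r = r :=
    ⟨orderOf φ, orderOf_pos φ, 0, by simp [pow_orderOf_eq_one]⟩
  obtain ⟨hf0, a0, ha0⟩ := Nat.find_spec hex
  set f := Nat.find hex with hf
  have hmin : ∀ (n : ℕ) (a : ℤ), 0 < n → (σ ^ a * φ ^ n) r = r → f ≤ n := fun n a hn ha =>
    Nat.find_min' hex ⟨hn, a, ha⟩
  obtain ⟨j, hj⟩ : ∃ j : ℕ, σ ^ j = σ ^ a0 := by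
    refine ⟨(a0 % (orderOf σ : ℤ)).toNat, ?_⟩
    have h1 : ((a0 % (orderOf σ : ℤ)).toNat : ℤ) = a0 % (orderOf σ : ℤ) :=
      Int.toNat_of_nonneg (Int.emod_nonneg _ (by exact_mod_cast he0.ne'))
    rw [← zpow_natCast, h1, zpow_mod_orderOf]
  have hjr : (σ ^ j * φ ^ f) r = r := by rw [hj]; exact ha0
  refine ⟨orderOf σ, f, j, he0, hf0, pow_orderOf_eq_one σ, hjr, fun l hl => hdvd l r hl, hmin,
    fun w => ?_⟩
  rw [← Finset.sum_product']
  refine Finset.sum_bij (fun x _ => (σ ^ j * φ ^ x.1 * σ ^ (q * x.2))⁻¹ r) (fun _ _ => mem_univ _)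
    ?_ ?_ fun _ _ => rfl
  · -- injectivity
    have key : ∀ i i' l l' : ℕ, i ≤ i' → i' < f → l < orderOf σ → l' < orderOf σ →
        (σ ^ j * φ ^ i * σ ^ (q * l))⁻¹ r = (σ ^ j * φ ^ i' * σ ^ (q * l'))⁻¹ r →
        i = i' ∧ l = l' := by
      intro i i' l l' hii hi' hl hl' heq
      obtain ⟨d, rfl⟩ := Nat.exists_eq_add_of_le hii
      set z := (σ ^ j * φ ^ i * σ ^ (q * l))⁻¹ r with hz
      have h1 : (σ ^ j * φ ^ i * σ ^ (q * l)) z = r := Equiv.apply_symm_apply _ _
      have h2 : (σ ^ j * φ ^ (i + d) * σ ^ (q * l')) z = r := by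
        rw [heq]
        exact Equiv.apply_symm_apply _ _
      -- `z` in terms of `u = φ ^ i z`
      set u := (φ ^ i) z with hu
      have h3 : σ ^ j * φ ^ i * σ ^ (q * l) =
          σ ^ ((j : ℤ) + (q : ℤ) ^ i * ((q * l : ℕ) : ℤ)) * φ ^ i := by
        rw [← zpow_natCast σ (q * l), mul_assoc, semi h, ← mul_assoc, ← zpow_natCast σ j,
          ← zpow_add]
      have h4 : σ ^ j * φ ^ (i + d) * σ ^ (q * l') =
          σ ^ ((j : ℤ) + (q : ℤ) ^ (i + d) * ((q * l' : ℕ) : ℤ)) * φ ^ d * φ ^ i := by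
        rw [← zpow_natCast σ (q * l'), mul_assoc, semi h, ← mul_assoc, ← zpow_natCast σ j,
          ← zpow_add, mul_assoc, ← pow_add, add_comm d i]
      rw [h3, Equiv.Perm.mul_apply, ← hu] at h1
      rw [h4, Equiv.Perm.mul_apply, ← hu, Equiv.Perm.mul_apply] at h2
      set A : ℤ := (j : ℤ) + (q : ℤ) ^ i * ((q * l : ℕ) : ℤ) with hA
      set A' : ℤ := (j : ℤ) + (q : ℤ) ^ (i + d) * ((q * l' : ℕ) : ℤ) with hA'
      have h5 : u = (σ ^ (-A)) r := by
        rw [← h1, ← Equiv.Perm.mul_apply, ← zpow_add, neg_add_cancel, zpow_zero,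
          Equiv.Perm.one_apply]
      have h6 : (σ ^ (A' + (q : ℤ) ^ d * (-A)) * φ ^ d) r = r := by
        rw [zpow_add, mul_assoc, ← semi h, Equiv.Perm.mul_apply, Equiv.Perm.mul_apply, ← h5]
        exact h2
      have hd : d = 0 := by
        by_contra hd
        have := hmin d _ (Nat.pos_of_ne_zero hd) h6
        omega
      subst hd
      refine ⟨rfl, ?_⟩
      rw [pow_zero, Equiv.Perm.one_apply] at h2
      have h7 : (σ ^ (-A' + A)) u = u := by
        rw [zpow_add, Equiv.Perm.mul_apply, h1, ← h2, ← Equiv.Perm.mul_apply, ← zpow_add,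
          neg_add_cancel, zpow_zero, Equiv.Perm.one_apply]
      have h8 := hdvd _ _ h7
      have h9 : -A' + A = (q : ℤ) ^ (i + 1) * ((l : ℤ) - l') := by
        rw [hA, hA', add_zero]
        push_cast
        ring
      rw [h9] at h8
      have h10 : IsCoprime (orderOf σ : ℤ) ((q : ℤ) ^ (i + 1)) :=
        ((Nat.isCoprime_iff_coprime.2 (cop h)).symm).pow_right
      have h11 := h10.dvd_of_dvd_mul_left h8
      have h12 : (l' : ℤ) % (orderOf σ : ℤ) = (l : ℤ) % (orderOf σ : ℤ) :=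
        Int.modEq_iff_dvd.2 h11
      rw [Int.emod_eq_of_lt (by positivity) (by exact_mod_cast hl'),
        Int.emod_eq_of_lt (by positivity) (by exact_mod_cast hl)] at h12
      exact_mod_cast h12.symm
    intro x hx y hy hxy
    rw [mem_product, mem_range, mem_range] at hx hy
    rcases le_total x.1 y.1 with hle | hle
    · obtain ⟨h1, h2⟩ := key _ _ _ _ hle hy.1 hx.2 hy.2 hxy
      exact Prod.ext h1 h2
    · obtain ⟨h1, h2⟩ := key _ _ _ _ hle hx.1 hy.2 hx.2 hxy.symm
      exact Prod.ext h1.symm h2.symm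
  · -- surjectivity
    intro z _
    obtain ⟨k, hk, hkz⟩ := ht z r
    obtain ⟨a, b, rfl⟩ := form h k hk
    -- reduce `b` modulo `f`
    have hred : ∀ m i : ℕ, ∀ a : ℤ, (σ ^ a * φ ^ (f * m + i)) z = r →
        ∃ a' : ℤ, (σ ^ a' * φ ^ i) z = r := by
      intro m
      induction m with
      | zero =>
        intro i a h1
        rw [mul_zero, zero_add] at h1
        exact ⟨a, h1⟩
      | succ m ih =>
        intro i a h1
        have h2 : (σ ^ j * φ ^ f)⁻¹ r = r := by
          rw [Equiv.Perm.inv_eq_iff_eq, hjr]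
        have h3 : (σ ^ a * φ ^ (f * (m + 1) + i)) z = (σ ^ j * φ ^ f) r := by rw [h1, hjr]
        have h4 : σ ^ a * φ ^ (f * (m + 1) + i) =
            σ ^ (a - j) * (σ ^ j * φ ^ f) * φ ^ (f * m + i) := by
          rw [← mul_assoc, ← zpow_natCast σ j, ← zpow_add, sub_add_cancel, mul_assoc, ← pow_add]
          congr 2
          ring
        -- move `σ ^ (a - j)` through `ψ = σ ^ j φ ^ f`
        obtain ⟨m', hm'⟩ := exists_pow_eq_self_of_coprime (x := σ) (n := q ^ f)
          ((cop h).pow_left f)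
        have h5 : σ ^ (a - j) * (σ ^ j * φ ^ f) =
            (σ ^ j * φ ^ f) * σ ^ ((m' : ℤ) * (a - j)) := by
          have h6 : φ ^ f * σ ^ ((m' : ℤ) * (a - j)) = σ ^ (a - j) * φ ^ f := by
            rw [semi h]
            congr 1
            have h7 : σ ^ ((q : ℤ) ^ f * ((m' : ℤ) * (a - j))) = ((σ ^ q ^ f) ^ m') ^ (a - j) := by
              rw [← zpow_natCast σ (q ^ f), ← zpow_natCast, ← zpow_mul, ← zpow_mul]
              congr 1
            rw [h7, hm']
          rw [mul_assoc, h6, ← mul_assoc, ← mul_assoc, ← zpow_natCast σ j, ← zpow_add, ← zpow_add,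
            add_comm]
        rw [h4, h5, mul_assoc, Equiv.Perm.mul_apply] at h3
        have h8 := (σ ^ j * φ ^ f).injective h3
        exact ih i _ h8
    have hb : b = f * (b / f) + b % f := (Nat.div_add_mod b f).symm
    rw [hb] at hkz
    obtain ⟨a', ha'⟩ := hred _ _ _ hkz
    set i := b % f with hi
    have hif : i < f := Nat.mod_lt _ hf0
    -- solve for `l`
    obtain ⟨m', hm'⟩ := exists_pow_eq_self_of_coprime (x := σ) (n := q ^ (i + 1))
      ((cop h).pow_left (i + 1))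
    set L : ℤ := (m' : ℤ) * (a' - j) with hL
    obtain ⟨l, hl, hlL⟩ : ∃ l : ℕ, l < orderOf σ ∧ σ ^ l = σ ^ L := by
      refine ⟨(L % (orderOf σ : ℤ)).toNat, ?_, ?_⟩
      · have h1 : L % (orderOf σ : ℤ) < orderOf σ := Int.emod_lt_of_pos _ (by exact_mod_cast he0)
        have h2 : 0 ≤ L % (orderOf σ : ℤ) := Int.emod_nonneg _ (by exact_mod_cast he0.ne')
        omega
      · have h1 : ((L % (orderOf σ : ℤ)).toNat : ℤ) = L % (orderOf σ : ℤ) :=
          Int.toNat_of_nonneg (Int.emod_nonneg _ (by exact_mod_cast he0.ne'))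
        rw [← zpow_natCast, h1, zpow_mod_orderOf]
    refine ⟨(i, l), ?_, ?_⟩
    · rw [mem_product, mem_range, mem_range]
      exact ⟨hif, hl⟩
    · change (σ ^ j * φ ^ i * σ ^ (q * l))⁻¹ r = z
      rw [Equiv.Perm.inv_eq_iff_eq, ← ha']
      congr 1
      have h1 : σ ^ (q * l) = σ ^ ((q : ℤ) * L) := by
        rw [mul_comm q l, pow_mul, hlL, mul_comm (q : ℤ) L, zpow_mul σ L (q : ℤ)]
        exact (zpow_natCast (σ ^ L) q).symm
      rw [h1, mul_assoc, semi h, ← mul_assoc, ← zpow_natCast σ j, ← zpow_add]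
      congr 1
      have h2 : σ ^ ((j : ℤ) + (q : ℤ) ^ i * ((q : ℤ) * L)) =
          σ ^ (j : ℤ) * ((σ ^ q ^ (i + 1)) ^ m') ^ (a' - j) := by
        rw [zpow_add]
        congr 1
        rw [← zpow_natCast σ (q ^ (i + 1)), ← zpow_natCast, ← zpow_mul, ← zpow_mul]
        congr 1
        rw [hL]
        push_cast
        ring
      rw [h2, hm', ← zpow_add]
      congr 1
      ring

end perm

variable {H R : Type*} [Group H] [MulAction H R] [Fintype R]

/-- THE ORBIT FORMULA (transitive case). -/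
theorem orbit_formula {sg ph : H} {q : ℕ} (hq : Odd q) (h : ph * sg = sg ^ q * ph)
    (hgen : Subgroup.closure ({ph, sg} : Set H) = ⊤) (ht : ∀ x y : R, ∃ k : H, k • x = y) (r : R) :
    ∃ e f j : ℕ, 0 < e ∧ 0 < f ∧ sg ^ e • r = r ∧ (sg ^ j * ph ^ f) • r = r ∧
      (∀ l : ℤ, sg ^ l • r = r → (e : ℤ) ∣ l) ∧
      (∀ (n : ℕ) (a : ℤ), 0 < n → (sg ^ a * ph ^ n) • r = r → f ≤ n) ∧
      ∀ B : H → H → R → ZMod 2, Coc2 B →
        inv (sg ^ e) (sg ^ j * ph ^ f) (q ^ f) (fun s t => B s t r) =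
          inv sg ph q (fun s t => ∑ r', B s t r') := by
  set π : H →* Equiv.Perm R := MulAction.toPermHom H R with hπ
  have hπa : ∀ (s : H) (x : R), π s x = s • x := fun _ _ => rfl
  have h1 : π ph * π sg = π sg ^ q * π ph := by
    rw [← map_mul, h, map_mul, map_pow]
  have hmap : (Subgroup.closure ({ph, sg} : Set H)).map π =
      Subgroup.closure ({π ph, π sg} : Set (Equiv.Perm R)) := by
    rw [MonoidHom.map_closure, Set.image_pair]
  have ht' : ∀ x y : R, ∃ k ∈ Subgroup.closure ({π ph, π sg} : Set (Equiv.Perm R)), k x = y := by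
    intro x y
    obtain ⟨k, hk⟩ := ht x y
    refine ⟨π k, ?_, hk⟩
    rw [← hmap]
    exact ⟨k, by rw [hgen]; trivial, rfl⟩
  obtain ⟨e, f, j, he0, hf0, he, hj, hd, hm, hw⟩ := exists_efj h1 ht' r
  have he' : ∀ x : R, sg ^ e • x = x := by
    intro x
    rw [← hπa, map_pow, he]
    rfl
  refine ⟨e, f, j, he0, hf0, he' r, ?_, ?_, ?_, fun B hB => ?_⟩
  · rw [← hπa, map_mul, map_pow, map_pow]
    exact hj
  · intro l hl
    refine hd l ?_
    rw [← map_zpow, hπa]
    exact hl
  · intro n a hn hna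
    refine hm n a hn ?_
    rw [← map_zpow, ← map_pow, ← map_mul, hπa]
    exact hna
  · have hj' : (sg ^ j * ph ^ f) • r = r := by
      rw [← hπa, map_mul, map_pow, map_pow]
      exact hj
    rw [inv_stab hB hq h he0 he' f j hj']
    have h2 := hw (fun r' => inv sg ph q (fun s t => B s t r'))
    have h3 : ∀ i l : ℕ, (π sg ^ j * π ph ^ i * π sg ^ (q * l))⁻¹ r =
        (sg ^ j * ph ^ i * sg ^ (q * l))⁻¹ • r := by
      intro i l
      rw [← map_pow, ← map_pow, ← map_pow, ← map_mul, ← map_mul, ← map_inv]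
      rfl
    simp only [h3] at h2
    rw [h2]
    unfold inv
    rw [sum_add_distrib, sum_add_distrib]
    congr 1
    rw [sum_comm]

end Pool.Agent.SmN.Loc
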